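import Mathlib

namespace Pool.Agent.H.MP_d104cf_an

open Set Filter Topology
open scoped ENNReal

variable {E : Type*} [NormedAddCommGroup E] [NormedSpace ℝ E] [Lattice E] [HasSolidNorm E]
  [IsOrderedAddMonoid E] [PosSMulMono ℝ E]

def Ku (u : E) : Set (E → ℝ≥0∞) :=
  {φ | φ u = 1 ∧ (∀ x y, 0 ≤ x → 0 ≤ y → φ (x + y) = φ x + φ y) ∧
    (∀ x y, 0 ≤ x → 0 ≤ y → φ (x ⊓ y) = φ x ⊓ φ y) ∧
    ∀ (r : ℝ) (z : E), φ (r • z) = ENNReal.ofReal |r| * φ |z|}

lemma sm_inf {r : ℝ} (hr : 0 ≤ r) (a b : E) : r • (a ⊓ b) = r • a ⊓ r • b := by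
  rcases hr.eq_or_lt with rfl | h
  · simp
  refine le_antisymm (le_inf (smul_le_smul_of_nonneg_left inf_le_left hr)
    (smul_le_smul_of_nonneg_left inf_le_right hr)) ?_
  have : r⁻¹ • (r • a ⊓ r • b) ≤ a ⊓ b := by
    refine le_inf ?_ ?_
    · simpa [smul_smul, h.ne'] using
        smul_le_smul_of_nonneg_left (inf_le_left : r • a ⊓ r • b ≤ _) (inv_nonneg.2 hr)
    · simpa [smul_smul, h.ne'] using
        smul_le_smul_of_nonneg_left (inf_le_right : r • a ⊓ r • b ≤ _) (inv_nonneg.2 hr)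
  simpa [smul_smul, h.ne'] using smul_le_smul_of_nonneg_left this hr

lemma sm_sup {r : ℝ} (hr : 0 ≤ r) (a b : E) : r • (a ⊔ b) = r • a ⊔ r • b := by
  have := sm_inf hr (-a) (-b)
  rw [← neg_sup, smul_neg, smul_neg, smul_neg, ← neg_sup] at this
  exact neg_injective this

lemma sm_abs (r : ℝ) (z : E) : |r • z| = |r| • |z| := by
  have key : ∀ r : ℝ, 0 ≤ r → |r • z| = r • |z| := fun r hr => by
    rw [abs, abs, sm_sup hr, smul_neg]
  rcases le_total 0 r with h | h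
  · rw [key r h, abs_of_nonneg h]
  · rw [← abs_neg, ← neg_smul, key _ (by linarith), abs_of_nonpos h]

lemma sm_mono {u : E} (hu : 0 ≤ u) {s t : ℝ} (h : s ≤ t) : s • u ≤ t • u := by
  have := smul_nonneg (sub_nonneg.2 h) hu
  rwa [sub_smul, sub_nonneg] at this

structure Cone (M : Set E) : Prop where
  zero : (0 : E) ∈ M
  add : ∀ x ∈ M, ∀ y ∈ M, x + y ∈ M
  low : ∀ x ∈ M, ∀ y, y ≤ x → y ∈ M
  pos : ∀ x ∈ M, x⁺ ∈ M
  smul : ∀ x ∈ M, ∀ r : ℝ, 0 ≤ r → r • x ∈ M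

lemma prime {w : E} (hw : ¬ w ≤ 0) :
    ∃ M : Set E, Cone M ∧ w ∉ M ∧ ∀ a b, a ⊓ b ∈ M → a ∈ M ∨ b ∈ M := by
  obtain ⟨M, -, hM⟩ := zorn_subset_nonempty {M : Set E | Cone M ∧ w ∉ M} (by
    intro c hc hch hne
    refine ⟨⋃₀ c, ⟨⟨?_, ?_, ?_, ?_, ?_⟩, ?_⟩, fun s hs => subset_sUnion_of_mem hs⟩
    · obtain ⟨s, hs⟩ := hne
      exact ⟨s, hs, (hc hs).1.zero⟩
    · rintro x ⟨s, hs, hx⟩ y ⟨t, ht, hy⟩
      rcases hch.total hs ht with h | h
      · exact ⟨t, ht, (hc ht).1.add x (h hx) y hy⟩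
      · exact ⟨s, hs, (hc hs).1.add x hx y (h hy)⟩
    · rintro x ⟨s, hs, hx⟩ y hy
      exact ⟨s, hs, (hc hs).1.low x hx y hy⟩
    · rintro x ⟨s, hs, hx⟩
      exact ⟨s, hs, (hc hs).1.pos x hx⟩
    · rintro x ⟨s, hs, hx⟩ r hr
      exact ⟨s, hs, (hc hs).1.smul x hx r hr⟩
    · rintro ⟨s, hs, hx⟩
      exact (hc hs).2 hx) {x | x ≤ 0}
    ⟨⟨le_rfl, fun x hx y hy => add_nonpos hx hy, fun x hx y hy => hy.trans hx,
      fun x hx => posPart_nonpos.2 hx, fun x hx r hr => smul_nonpos_of_nonneg_of_nonpos hr hx⟩, hw⟩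
  obtain ⟨hC, hw'⟩ := hM.prop
  have key : ∀ a, a ∉ M → ∃ m ∈ M, ∃ r : ℝ, 0 ≤ r ∧ w ≤ m + r • a⁺ := by
    intro a ha
    by_contra hn
    have hsub : M ⊆ {z | ∃ m ∈ M, ∃ r : ℝ, 0 ≤ r ∧ z ≤ m + r • a⁺} :=
      fun z hz => ⟨z, hz, 0, le_rfl, by simp⟩
    refine ha (hM.le_of_ge (y := {z | ∃ m ∈ M, ∃ r : ℝ, 0 ≤ r ∧ z ≤ m + r • a⁺})
      ⟨⟨hsub hC.zero, ?_, ?_, ?_, ?_⟩, hn⟩ hsub ⟨0, hC.zero, 1, zero_le_one, by
        simpa using le_posPart a⟩)
    · rintro x ⟨m, hm, r, hr, hx⟩ y ⟨m', hm', r', hr', hy⟩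
      refine ⟨m + m', hC.add _ hm _ hm', r + r', by positivity, (add_le_add hx hy).trans_eq ?_⟩
      rw [add_smul]; abel
    · rintro x ⟨m, hm, r, hr, hx⟩ y hy
      exact ⟨m, hm, r, hr, hy.trans hx⟩
    · rintro x ⟨m, hm, r, hr, hx⟩
      refine ⟨m⁺, hC.pos m hm, r, hr, sup_le (hx.trans (by gcongr; exact le_posPart m)) ?_⟩
      exact add_nonneg (posPart_nonneg m) (smul_nonneg hr (posPart_nonneg a))
    · rintro x ⟨m, hm, r, hr, hx⟩ s hs
      refine ⟨s • m, hC.smul m hm s hs, s * r, by positivity, ?_⟩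
      simpa [smul_smul] using smul_le_smul_of_nonneg_left hx hs
  refine ⟨M, hC, hw', fun a b hab => ?_⟩
  by_contra hn
  push Not at hn
  obtain ⟨m, hm, r, hr, h1⟩ := key a hn.1
  obtain ⟨m', hm', r', hr', h2⟩ := key b hn.2
  have e : a⁺ ⊓ b⁺ = (a ⊓ b)⁺ := by
    let : DistribLattice E := AddCommGroup.toDistribLattice E
    exact (sup_inf_right a b 0).symm
  refine hw' (hC.low _ (hC.add _ (hC.add _ (hC.pos m hm) _ (hC.pos m' hm')) _
    (hC.smul _ (hC.pos _ hab) (r + r') (by positivity))) w ?_)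
  rw [← e, sm_inf (by positivity), add_inf]
  refine le_inf (h1.trans (add_le_add ?_ (sm_mono (posPart_nonneg a) (by linarith))))
    (h2.trans (add_le_add ?_ (sm_mono (posPart_nonneg b) (by linarith))))
  · exact (le_posPart m).trans (le_add_of_nonneg_right (posPart_nonneg m'))
  · exact (le_posPart m').trans (le_add_of_nonneg_left (posPart_nonneg m))

noncomputable def ph (M : Set E) (u x : E) : ℝ≥0∞ :=
  ⨅ t : {t : ℝ // |x| - t • u ∈ M}, ENNReal.ofReal t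

lemma le_ph {M : Set E} {u x : E} {c : ℝ≥0∞}
    (h : ∀ t : ℝ, |x| - t • u ∈ M → c ≤ ENNReal.ofReal t) : c ≤ ph M u x :=
  le_iInf fun t => h t.1 t.2

lemma ph_mem {M : Set E} (hC : Cone M) (hp : ∀ a b, a ⊓ b ∈ M → a ∈ M ∨ b ∈ M) {u : E}
    (hu : 0 ≤ u) (huM : u ∉ M) : ph M u ∈ Ku u := by
  have hneg : ∀ s : ℝ, s • u ∈ M → s ≤ 0 := fun s hs => by
    by_contra h
    push Not at h
    have := hC.smul _ hs s⁻¹ (inv_nonneg.2 h.le)
    rw [smul_smul, inv_mul_cancel₀ h.ne', one_smul] at this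
    exact huM this
  have tot : ∀ x, x ∈ M ∨ -x ∈ M := fun x => hp _ _ (hC.low _ hC.zero _ (by
    have := abs_nonneg x
    rw [abs, ← neg_nonpos, neg_sup, neg_neg, inf_comm] at this
    exact this))
  have A : ∀ x (t : ℝ), |x| - t • u ∈ M → ph M u x ≤ ENNReal.ofReal t :=
    fun x t h => iInf_le (fun t : {t : ℝ // |x| - t • u ∈ M} => ENNReal.ofReal t) ⟨t, h⟩
  have B : ∀ x (t δ : ℝ), 0 < δ → ENNReal.ofReal t ≤ ph M u x → (t - δ) • u - |x| ∈ M := by
    intro x t δ hδ h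
    by_contra hn
    have h1 := (tot _).resolve_left hn
    rw [neg_sub] at h1
    have h2 := h.trans (A x _ h1)
    have h3 : 0 < t - δ := by
      by_contra h3
      refine hn (hC.low _ hC.zero _ ?_)
      have := sm_mono hu (not_lt.1 h3)
      rw [zero_smul] at this
      exact sub_nonpos.2 (this.trans (abs_nonneg x))
    rw [ENNReal.ofReal_le_ofReal_iff h3.le] at h2
    linarith
  have mono : ∀ x y, 0 ≤ x → x ≤ y → ph M u x ≤ ph M u y := fun x y hx hy =>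
    le_ph fun t ht => A x t (hC.low _ ht _ (by
      rw [abs_of_nonneg hx, abs_of_nonneg (hx.trans hy)]; gcongr))
  have sm : ∀ (r : ℝ) z, r ≠ 0 → ph M u (r • z) ≤ ENNReal.ofReal |r| * ph M u z := by
    intro r z hr
    have h0 : 0 < |r| := abs_pos.2 hr
    rw [ph.eq_1 M u z, ENNReal.mul_iInf_of_ne (by simpa using h0) (by simp)]
    refine le_iInf fun t => ?_
    rw [← ENNReal.ofReal_mul h0.le]
    refine A _ _ ?_
    have := hC.smul _ t.2 _ h0.le
    rwa [smul_sub, smul_smul, ← sm_abs] at this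
  refine ⟨le_antisymm ?_ (le_ph fun t h => ?_), fun x y hx hy => le_antisymm ?_ (le_ph fun t h => ?_),
    fun x y hx hy => le_antisymm (le_inf (mono _ _ (le_inf hx hy) inf_le_left)
      (mono _ _ (le_inf hx hy) inf_le_right)) (le_ph fun t h => ?_), fun r z => ?_⟩
  · simpa using A u 1 (by simpa [abs_of_nonneg hu] using hC.zero)
  · rw [abs_of_nonneg hu] at h
    have := hneg (1 - t) (by rwa [sub_smul, one_smul])
    rw [← ENNReal.ofReal_one]
    exact ENNReal.ofReal_le_ofReal (by linarith)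
  · refine ENNReal.le_iInf_add_iInf fun ⟨s, hs⟩ ⟨t, ht⟩ =>
      le_trans (A _ (s + t) ?_) ENNReal.ofReal_add_le
    have := hC.add _ hs _ ht
    rw [abs_of_nonneg hx, abs_of_nonneg hy] at this
    rw [abs_of_nonneg (add_nonneg hx hy), add_smul]
    exact hC.low _ this _ (le_of_eq (by abel))
  · have h1 : ph M u x ≠ ⊤ := ne_top_of_le_ne_top ENNReal.ofReal_ne_top
      ((mono _ _ hx (le_add_of_nonneg_right hy)).trans (A _ _ h))
    have h2 : ph M u y ≠ ⊤ := ne_top_of_le_ne_top ENNReal.ofReal_ne_top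
      ((mono _ _ hy (le_add_of_nonneg_left hx)).trans (A _ _ h))
    rw [← ENNReal.ofReal_toReal h1, ← ENNReal.ofReal_toReal h2,
      ← ENNReal.ofReal_add ENNReal.toReal_nonneg ENNReal.toReal_nonneg]
    refine ENNReal.ofReal_le_ofReal (le_of_forall_pos_le_add fun δ hδ => ?_)
    have a := B x _ (δ / 2) (by positivity) (ENNReal.ofReal_toReal h1).le
    have b := B y _ (δ / 2) (by positivity) (ENNReal.ofReal_toReal h2).le
    have c := hC.add _ (hC.add _ a _ b) _ h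
    rw [abs_of_nonneg hx, abs_of_nonneg hy, abs_of_nonneg (add_nonneg hx hy)] at c
    have := hneg ((ph M u x).toReal - δ / 2 + ((ph M u y).toReal - δ / 2) - t)
      (hC.low _ c _ (le_of_eq (by module)))
    linarith
  · rw [abs_of_nonneg (le_inf hx hy), inf_sub] at h
    rcases hp _ _ h with a | a
    · exact inf_le_left.trans (A x t (by rwa [abs_of_nonneg hx]))
    · exact inf_le_right.trans (A y t (by rwa [abs_of_nonneg hy]))
  · have e : ph M u |z| = ph M u z := le_antisymm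
      (le_ph fun t h => A _ t (by rwa [abs_abs])) (le_ph fun t h => A _ t (by rwa [abs_abs] at h))
    rw [e]
    by_cases hr : r = 0
    · subst hr
      simpa using A 0 0 (by simpa using hC.zero)
    refine le_antisymm (sm r z hr) ?_
    have := sm r⁻¹ (r • z) (inv_ne_zero hr)
    rw [smul_smul, inv_mul_cancel₀ hr, one_smul] at this
    refine (mul_le_mul_right this _).trans_eq ?_
    rw [← mul_assoc, ← ENNReal.ofReal_mul (abs_nonneg r), ← abs_mul, mul_inv_cancel₀ hr]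
    simp

lemma kak {u y : E} (hu : 0 ≤ u) (hy : 0 ≤ y) (h0 : y ≠ 0) {R : ℝ} (hR : y ≤ R • u) :
    ∃ φ ∈ Ku u, φ y ≠ 0 := by
  obtain ⟨ε, hε, h⟩ : ∃ ε : ℝ, 0 < ε ∧ ¬ y - ε • u ≤ 0 := by
    by_contra hn
    push Not at hn
    have : Tendsto (fun n : ℕ => (1 / ((n : ℝ) + 1)) • u) atTop (𝓝 ((0 : ℝ) • u)) :=
      tendsto_one_div_add_atTop_nhds_zero_nat.smul_const u
    rw [zero_smul] at this
    exact h0 (le_antisymm (ge_of_tendsto' this fun n => sub_nonpos.1 (hn _ (by positivity))) hy)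
  obtain ⟨M, hC, hw, hp⟩ := prime h
  have huM : u ∉ M := fun a => hw (hC.low _ (hC.smul _ a |R| (abs_nonneg R)) _
    ((sub_le_self _ (smul_nonneg hε.le hu)).trans (hR.trans (sm_mono hu (le_abs_self R)))))
  refine ⟨ph M u, ph_mem hC hp hu huM, ne_of_gt (lt_of_lt_of_le (ENNReal.ofReal_pos.2 hε)
    (le_ph fun t ht => ENNReal.ofReal_le_ofReal ?_))⟩
  by_contra hn
  refine hw (hC.low _ ht _ ?_)
  rw [abs_of_nonneg hy]
  exact sub_le_sub_left (sm_mono hu (not_le.1 hn).le) _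

end Pool.Agent.H.MP_d104cf_an
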