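import Pool.Agent.H.MP_d104cf_an.A

namespace Pool.Agent.H.MP_d104cf_an

open Set Filter Topology
open scoped ENNReal

variable {E : Type*} [NormedAddCommGroup E] [NormedSpace ℝ E] [Lattice E] [HasSolidNorm E]
  [IsOrderedAddMonoid E] [PosSMulMono ℝ E] {u : E} {φ : E → ℝ≥0∞}

def Bd (u y : E) : Prop := ∃ R : ℝ, |y| ≤ R • u

noncomputable def ev (φ : E → ℝ≥0∞) (y : E) : ℝ := (φ y⁺).toReal - (φ y⁻).toReal

lemma Bd.of_le {x y : E} (h : Bd u y) (hx : |x| ≤ |y|) : Bd u x := h.imp fun _ a => hx.trans a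

lemma Bd.add {x y : E} (h : Bd u x) (h' : Bd u y) : Bd u (x + y) := by
  obtain ⟨R, a⟩ := h
  obtain ⟨S, b⟩ := h'
  exact ⟨R + S, (abs_add_le x y).trans (by rw [add_smul]; gcongr)⟩

lemma Bd.smul {x : E} (h : Bd u x) (r : ℝ) : Bd u (r • x) := by
  obtain ⟨R, a⟩ := h
  exact ⟨|r| * R, by rw [sm_abs, mul_smul]; exact smul_le_smul_of_nonneg_left a (abs_nonneg r)⟩

lemma Bd.pos {x : E} (h : Bd u x) : Bd u x⁺ :=
  h.of_le (by rw [abs_of_nonneg (posPart_nonneg x)]; exact sup_le (le_abs_self x) (abs_nonneg x))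

lemma Bd.neg {x : E} (h : Bd u x) : Bd u x⁻ :=
  h.of_le (by rw [abs_of_nonneg (negPart_nonneg x)]; exact sup_le (neg_le_abs x) (abs_nonneg x))

lemma Bd.self (hu : 0 ≤ u) : Bd u u := ⟨1, by simp [abs_of_nonneg hu]⟩

lemma phi_zero (h : φ ∈ Ku u) : φ 0 = 0 := by simpa using h.2.2.2 0 0

lemma phi_sm (h : φ ∈ Ku u) {x : E} (hx : 0 ≤ x) {r : ℝ} (hr : 0 ≤ r) :
    φ (r • x) = ENNReal.ofReal r * φ x := by
  rw [h.2.2.2, abs_of_nonneg hx, abs_of_nonneg hr]

lemma phi_fin (hu : 0 ≤ u) (h : φ ∈ Ku u) {x : E} (hx : 0 ≤ x) (hb : Bd u x) : φ x ≠ ⊤ := by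
  obtain ⟨R, a⟩ := hb
  rw [abs_of_nonneg hx] at a
  have b := h.2.1 x _ hx (sub_nonneg.2 a)
  rw [add_sub_cancel, h.2.2.2, abs_of_nonneg hu, h.1, mul_one] at b
  intro c
  simp [c] at b

lemma ev_sub (hu : 0 ≤ u) (h : φ ∈ Ku u) {a b : E} (ha : 0 ≤ a) (hb : 0 ≤ b) (ha' : Bd u a)
    (hb' : Bd u b) : ev φ (a - b) = (φ a).toReal - (φ b).toReal := by
  have hab : Bd u (a - b) := by simpa [sub_eq_add_neg] using ha'.add (hb'.smul (-1))
  have e : (a - b)⁺ + b = (a - b)⁻ + a := by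
    have := posPart_sub_negPart (a - b)
    rw [sub_eq_sub_iff_add_eq_add] at this
    rw [this, add_comm]
  have e2 := congrArg (fun x => (φ x).toReal) e
  simp only [h.2.1 _ _ (posPart_nonneg _) hb, h.2.1 _ _ (negPart_nonneg _) ha] at e2
  rw [ENNReal.toReal_add (phi_fin hu h (posPart_nonneg _) hab.pos) (phi_fin hu h hb hb'),
    ENNReal.toReal_add (phi_fin hu h (negPart_nonneg _) hab.neg) (phi_fin hu h ha ha')] at e2
  rw [ev]; linarith

lemma ev_pos (h : φ ∈ Ku u) {a : E} (ha : 0 ≤ a) : ev φ a = (φ a).toReal := by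
  rw [ev, posPart_eq_self.2 ha, negPart_eq_zero.2 ha, phi_zero h]; simp

lemma ev_add (hu : 0 ≤ u) (h : φ ∈ Ku u) {y z : E} (hy : Bd u y) (hz : Bd u z) :
    ev φ (y + z) = ev φ y + ev φ z := by
  have e : y + z = (y⁺ + z⁺) - (y⁻ + z⁻) := by
    rw [add_sub_add_comm, posPart_sub_negPart, posPart_sub_negPart]
  rw [e, ev_sub hu h (add_nonneg (posPart_nonneg _) (posPart_nonneg _))
    (add_nonneg (negPart_nonneg _) (negPart_nonneg _)) (hy.pos.add hz.pos) (hy.neg.add hz.neg),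
    h.2.1 _ _ (posPart_nonneg _) (posPart_nonneg _), h.2.1 _ _ (negPart_nonneg _) (negPart_nonneg _),
    ENNReal.toReal_add (phi_fin hu h (posPart_nonneg _) hy.pos)
      (phi_fin hu h (posPart_nonneg _) hz.pos),
    ENNReal.toReal_add (phi_fin hu h (negPart_nonneg _) hy.neg)
      (phi_fin hu h (negPart_nonneg _) hz.neg), ev, ev]
  ring

lemma ev_smul (hu : 0 ≤ u) (h : φ ∈ Ku u) {y : E} (hy : Bd u y) (r : ℝ) :
    ev φ (r • y) = r * ev φ y := by
  rcases le_total 0 r with hr | hr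
  · have e : r • y = r • y⁺ - r • y⁻ := by rw [← smul_sub, posPart_sub_negPart]
    rw [e, ev_sub hu h (smul_nonneg hr (posPart_nonneg _)) (smul_nonneg hr (negPart_nonneg _))
      (hy.pos.smul r) (hy.neg.smul r), phi_sm h (posPart_nonneg _) hr,
      phi_sm h (negPart_nonneg _) hr, ev]
    simp only [ENNReal.toReal_mul, ENNReal.toReal_ofReal hr]
    ring
  · have hr' : 0 ≤ -r := by linarith
    have e : r • y = (-r) • y⁻ - (-r) • y⁺ := by
      rw [← smul_sub, negPart_sub_posPart, neg_smul_neg]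
    rw [e, ev_sub hu h (smul_nonneg hr' (negPart_nonneg _)) (smul_nonneg hr' (posPart_nonneg _))
      (hy.neg.smul _) (hy.pos.smul _), phi_sm h (posPart_nonneg _) hr',
      phi_sm h (negPart_nonneg _) hr', ev]
    simp only [ENNReal.toReal_mul, ENNReal.toReal_ofReal hr']
    ring

lemma Bd.inf {y z : E} (hy : Bd u y) (hz : Bd u z) : Bd u (y ⊓ z) := by
  have := hy.add ((hy.add (hz.smul (-1))).pos.smul (-1))
  rwa [neg_one_smul, neg_one_smul, ← sub_eq_add_neg, ← sub_eq_add_neg,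
    ← inf_eq_sub_posPart_sub] at this

lemma ev_posPart (h : φ ∈ Ku u) (y : E) : ev φ y⁺ = max (ev φ y) 0 := by
  have a := h.2.2.1 _ _ (posPart_nonneg y) (negPart_nonneg y)
  rw [posPart_inf_negPart_eq_zero, phi_zero h] at a
  rw [ev_pos h (posPart_nonneg y), ev]
  rcases min_eq_bot.1 a.symm with b | b
  · rw [b]; simp
  · rw [b]; simp

variable {K : Type*} [TopologicalSpace K] [CompactSpace K] [T2Space K]

def Rep (e : K ≃ₜ Ku u) (y : E) (g : C(K, ℝ)) : Prop := Bd u y ∧ ∀ k, g k = ev (e k).1 y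

variable {e : K ≃ₜ Ku u}

lemma rep_ex (hu : 0 ≤ u) {y : E} (hy : Bd u y) : ∃ g, Rep e y g := by
  have key : ∀ x, 0 ≤ x → Bd u x → Continuous fun k => ((e k).1 x).toReal := fun x hx hb =>
    ENNReal.continuousOn_toReal.comp_continuous
      ((continuous_apply x).comp (continuous_subtype_val.comp e.continuous))
      fun k => phi_fin hu (e k).2 hx hb
  exact ⟨⟨fun k => ev (e k).1 y, (key _ (posPart_nonneg y) hy.pos).sub
    (key _ (negPart_nonneg y) hy.neg)⟩, hy, fun _ => rfl⟩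

lemma Rep.add (hu : 0 ≤ u) {y z : E} {g h : C(K, ℝ)} (a : Rep e y g) (b : Rep e z h) :
    Rep e (y + z) (g + h) :=
  ⟨a.1.add b.1, fun k => by rw [ev_add hu (e k).2 a.1 b.1, ← a.2, ← b.2]; rfl⟩

lemma Rep.smul (hu : 0 ≤ u) {y : E} {g : C(K, ℝ)} (a : Rep e y g) (r : ℝ) :
    Rep e (r • y) (r • g) :=
  ⟨a.1.smul r, fun k => by rw [ev_smul hu (e k).2 a.1, ← a.2]; rfl⟩

lemma Rep.sub (hu : 0 ≤ u) {y z : E} {g h : C(K, ℝ)} (a : Rep e y g) (b : Rep e z h) :
    Rep e (y - z) (g - h) := by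
  simpa [sub_eq_add_neg] using a.add hu (b.smul hu (-1))

lemma Rep.pos {y : E} {g : C(K, ℝ)} (a : Rep e y g) : Rep e y⁺ g⁺ :=
  ⟨a.1.pos, fun k => by rw [ev_posPart (e k).2, ← a.2]; rfl⟩

lemma Rep.one (hu : 0 ≤ u) : Rep e u 1 :=
  ⟨Bd.self hu, fun k => by rw [ev_pos (e k).2 hu, (e k).2.1]; rfl⟩

lemma Rep.le_iff (hu : 0 ≤ u) {y z : E} {g h : C(K, ℝ)} (a : Rep e y g) (b : Rep e z h) :
    y ≤ z ↔ g ≤ h := by
  constructor
  · intro c k
    have := (b.sub hu a).2 k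
    rw [ev_pos (e k).2 (sub_nonneg.2 c)] at this
    have h2 : (0 : ℝ) ≤ h k - g k := le_of_le_of_eq ENNReal.toReal_nonneg this.symm
    exact sub_nonneg.1 h2
  · intro c
    by_contra hn
    have p := (a.sub hu b).pos
    obtain ⟨R, hR⟩ := p.1
    obtain ⟨ψ, h1, h2⟩ := kak hu (posPart_nonneg (y - z))
      (fun d => hn (sub_nonpos.1 (posPart_eq_zero.1 d))) ((le_abs_self _).trans hR)
    have q := p.2 (e.symm ⟨ψ, h1⟩)
    rw [posPart_eq_zero.2 (sub_nonpos.2 c), e.apply_symm_apply, ev_pos h1 (posPart_nonneg _)] at q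
    rcases (ENNReal.toReal_eq_zero_iff _).1 q.symm with d | d
    · exact h2 d
    · exact phi_fin hu h1 (posPart_nonneg _) p.1 d

lemma Rep.abs_le (hu : 0 ≤ u) {y : E} {g : C(K, ℝ)} (a : Rep e y g) (R : ℝ) :
    |y| ≤ R • u ↔ ∀ k, |g k| ≤ R := by
  have b := (Rep.one (e := e) hu).smul hu R
  have c := a.smul hu (-1)
  rw [abs_le', a.le_iff hu b, ← neg_one_smul ℝ y, c.le_iff hu b]
  simp only [ContinuousMap.le_def, _root_.abs_le', forall_and]
  simp

lemma sep (hu : 0 ≤ u) {k k' : K} (h : k ≠ k') : ∃ y g, Rep e y g ∧ g k ≠ g k' := by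
  by_contra hn
  push Not at hn
  refine h (e.injective (Subtype.ext (funext fun x => ?_)))
  have key : ∀ n : ℕ, (e k).1 |x| ⊓ n = (e k').1 |x| ⊓ n := by
    intro n
    have h0 : (0 : E) ≤ (n : ℝ) • u := smul_nonneg (Nat.cast_nonneg n) hu
    have h1 : 0 ≤ |x| ⊓ (n : ℝ) • u := le_inf (abs_nonneg x) h0
    have hb : Bd u (|x| ⊓ (n : ℝ) • u) := ⟨n, by rw [abs_of_nonneg h1]; exact inf_le_right⟩
    obtain ⟨g, hg⟩ := rep_ex (e := e) hu hb
    have a := hn _ g hg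
    rw [hg.2, hg.2, ev_pos (e k).2 h1, ev_pos (e k').2 h1,
      ENNReal.toReal_eq_toReal_iff' (phi_fin hu (e k).2 h1 hb) (phi_fin hu (e k').2 h1 hb),
      (e k).2.2.2.1 _ _ (abs_nonneg x) h0, (e k').2.2.2.1 _ _ (abs_nonneg x) h0,
      phi_sm (e k).2 hu (Nat.cast_nonneg n), phi_sm (e k').2 hu (Nat.cast_nonneg n),
      (e k).2.1, (e k').2.1] at a
    simpa using a
  have a := (e k).2.2.2.2 1 x
  have b := (e k').2.2.2.2 1 x
  simp only [one_smul, abs_one, ENNReal.ofReal_one, one_mul] at a b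
  rw [a, b]
  have gen : ∀ s t : ℝ≥0∞, (∀ n : ℕ, s ⊓ n = t ⊓ n) → s ≤ t := by
    intro s t hst
    by_contra c
    push Not at c
    obtain ⟨n, hn⟩ := ENNReal.exists_nat_gt c.ne_top
    have := hst n
    rw [inf_eq_left.2 hn.le] at this
    exact absurd this (lt_inf_iff.2 ⟨c, hn⟩).ne'
  exact le_antisymm (gen _ _ key) (gen _ _ fun n => (key n).symm)

lemma surj [CompleteSpace E] (hu : 0 ≤ u) (g : C(K, ℝ)) : ∃ y, Rep e y g := by
  have hd : closure {g : C(K, ℝ) | ∃ y, Rep e y g} = ⊤ := by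
    refine ContinuousMap.sublattice_closure_eq_top _ ⟨1, u, Rep.one hu⟩ ?_ ?_ ?_
    · rintro f ⟨y, a⟩ h ⟨z, b⟩
      exact ⟨_, by rw [inf_eq_sub_posPart_sub]; exact a.sub hu (a.sub hu b).pos⟩
    · rintro f ⟨y, a⟩ h ⟨z, b⟩
      exact ⟨_, by rw [sup_eq_add_posPart_sub]; exact b.add hu (a.sub hu b).pos⟩
    · intro v k k'
      by_cases hk : k = k'
      · subst hk
        exact ⟨_, ⟨_, (Rep.one hu).smul hu (v k)⟩, by simp, by simp⟩
      · obtain ⟨y, f, a, b⟩ := sep (e := e) hu hk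
        have b' := sub_ne_zero.2 b
        refine ⟨_, ⟨_, ((a.sub hu ((Rep.one hu).smul hu (f k'))).smul hu
          ((v k - v k') / (f k - f k'))).add hu ((Rep.one hu).smul hu (v k'))⟩, ?_, by simp⟩
        simp only [ContinuousMap.add_apply, ContinuousMap.smul_apply, ContinuousMap.sub_apply,
          ContinuousMap.one_apply, smul_eq_mul, mul_one]
        field_simp
        ring
  have hg : g ∈ closure {g : C(K, ℝ) | ∃ y, Rep e y g} := by rw [hd]; trivial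
  obtain ⟨f, hf, hlim⟩ := mem_closure_iff_seq_limit.1 hg
  choose y hy using hf
  have b1 : ∀ n m, |y n - y m| ≤ ‖f n - f m‖ • u := fun n m =>
    (((hy n).sub hu (hy m)).abs_le hu _).2 fun k => (f n - f m).norm_coe_le_norm k
  have hc : CauchySeq y := by
    rw [Metric.cauchySeq_iff]
    intro ε hε
    obtain ⟨N, hN⟩ := Metric.cauchySeq_iff.1 hlim.cauchySeq (ε / (‖u‖ + 1)) (by positivity)
    refine ⟨N, fun m hm n hn => ?_⟩
    have c := hN m hm n hn
    rw [dist_eq_norm] at c ⊢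
    have d : ‖y m - y n‖ ≤ ‖‖f m - f n‖ • u‖ := HasSolidNorm.solid ((b1 m n).trans (le_abs_self _))
    rw [norm_smul, norm_norm] at d
    rw [lt_div_iff₀ (by positivity)] at c
    nlinarith [norm_nonneg (f m - f n)]
  obtain ⟨z, hz⟩ := cauchySeq_tendsto_of_complete hc
  have b2 : ∀ n, |y n - z| ≤ ‖f n - g‖ • u := fun n =>
    le_of_tendsto_of_tendsto' (((continuous_id.sup continuous_neg : Continuous fun x : E => |x|).tendsto _).comp
        (tendsto_const_nhds.sub hz))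
      (((tendsto_const_nhds.sub hlim).norm).smul_const u) (b1 n)
  have hzb : Bd u z := by
    have := (hy 0).1.add (Bd.smul ⟨_, b2 0⟩ (-1))
    simpa using this
  obtain ⟨g', hg'⟩ := rep_ex (e := e) hu hzb
  have : Tendsto f atTop (𝓝 g') := by
    rw [tendsto_iff_norm_sub_tendsto_zero] at hlim ⊢
    refine squeeze_zero (fun _ => norm_nonneg _) (fun n => ?_) hlim
    exact (ContinuousMap.norm_le _ (norm_nonneg _)).2
      ((((hy n).sub hu hg').abs_le hu _).1 (b2 n))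
  exact ⟨z, tendsto_nhds_unique this hlim ▸ hg'⟩

end Pool.Agent.H.MP_d104cf_an
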